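import Pool.Agent.Helper73.NX2.LpLocalOf
import Pool.Agent.Helper5.NX2.Ratl

/-!
# Project NX2, A10: block phases, localisation to one cell (mixed exponents)
-/

set_option autoImplicit false

open Finset
open scoped BigOperators ComplexConjugate

namespace Pool.Agent.Helper67.NX2

open Pool.Agent.Helper57.NX

noncomputable section

theorem lp_local' (hES : ES0) (m : ℕ) (c : Fin (m + 1) → ℝ) (hc : Ex c) (s s0 : ℝ) (hs0 : 0 ≤ s0)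
    (hs0s : s0 ≤ s) (hs : s < c (Fin.last m)) (hnat : IsN (c (Fin.last m)) → 0 < s0)
    (hD : ∀ ε : ℝ, 0 < ε → DsPm m c s ε) :
    ∃ ε0 : ℝ, 0 < ε0 ∧ ∀ ε : ℝ, 0 < ε → ε ≤ ε0 → ∀ n : ℕ,
    ∃ x0 : ℝ, 0 < x0 ∧ ∃ C : ℕ, ∃ σ : ℝ, 0 < σ ∧ ∃ D0 : ℝ,
    ∀ (S : Sys (m + 1)) (N : ℕ) [NeZero N] (lam : ℕ), D0 ≤ S.D → IG S c N x0 lam →
    ∀ δ : ℝ, S.D ^ (-σ) ≤ δ → δ ≤ 1 / 2 → (lam : ℝ) ≤ δ⁻¹ →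
    ∀ X : ℕ, S.Q ≤ X → S.Q * S.D ^ (s - σ) ≤ (X : ℝ) → (X : ℝ) ≤ S.Q * S.D ^ s →
    ∀ q0 : ℕ, 1 ≤ q0 → S.P (Fin.last m) * S.D ^ (-ε) / 2 ≤ (X : ℝ) * q0 →
      (X : ℝ) * q0 ≤ S.P (Fin.last m) * S.D ^ (-ε) →
    ∀ (f0 : ZMod N → ℂ) (f : Fin m → ZMod N → ℂ),
    Adm δ⁻¹ S.Q f0 → (∀ i, Adm δ⁻¹ S.Q (f i)) →
    ∀ (r : ZMod N) (cc : ℕ → ℂ) (φ : ℕ → ℝ) (θ : ℕ → ℝ), (∀ j, ‖cc j‖ ≤ 1) →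
    (∀ j, |φ j| ≤ δ⁻¹ / (S.Q * S.D ^ s0)) →
    (∀ j, cc j ≠ 0 → |φ j - θ (j / q0)| ≤ δ⁻¹ ^ n / X) →
    δ ^ n ≤ ‖form S c 1 f0 (Fin.snoc (α := fun _ => ZMod N → ℂ) f (bphase X r cc φ))‖ →
    ∃ j, cc j ≠ 0 ∧ |φ j| ≤ δ⁻¹ ^ C / X :=
  lp_local_of (fun c hc hc0 a ε hε => ratl hES c hc hc0 a ε hε) m c hc s s0 hs0 hs0s hs hnat hD

end

end Pool.Agent.Helper67.NX2
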