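import Pool.Agent.Helper67.NX2.Defs
import Pool.Agent.Helper99.NX.LpLocalAux

/-!
# Project NX2, A10: block phases, localisation to one cell (auxiliary lemmas)
-/

set_option autoImplicit false

open Finset
open scoped BigOperators ComplexConjugate

namespace Pool.Agent.Helper67.NX2

open Pool.Agent.Helper57.NX

noncomputable section

/-! ### transport of a cell to `ZMod N'` -/

theorem lpl2_transport {m N N' : ℕ} (S : Sys (m + 1)) (c : Fin (m + 1) → ℝ)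
    (f0 : ZMod N → ℂ) (f : Fin m → ZMod N → ℂ) (X L κ : ℕ) (z : ZMod N) (cc : ℕ → ℂ) (φ : ℕ → ℝ)
    (ϑ : ℝ) (u' T' : ℕ) (hL : 1 ≤ L) [NeZero N'] (hN' : 4 * L ≤ N')
    (hai : ∀ i : Fin m, ∀ k ∈ Ico u' (u' + T'), 0 ≤ S.a c i.castSucc k ∧ S.a c i.castSucc k ≤ L)
    (hb : ∀ k ∈ Ico u' (u' + T'), 0 ≤ S.a c (Fin.last m) k - S.a c (Fin.last m) u' ∧
      S.a c (Fin.last m) k - S.a c (Fin.last m) u' ≤ L) :
    form (N := N') (S.sub u' T') c
      (fun k => e (ϑ * ((S.a c (Fin.last m) k - S.a c (Fin.last m) u' : ℤ) : ℝ)))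
      (fun y => if y.val < L then f0 (z + (y.val : ZMod N)) * e (ϑ * (y.val : ℝ)) else 0)
      (Fin.snoc (α := fun _ => ZMod N' → ℂ) (fun i y => f i (z + (y.val : ZMod N)))
        (fun y => cpf X L κ cc φ ϑ (y - (S.a c (Fin.last m) u' : ZMod N')).val)) =
    (L : ℂ) / N' * lplE2 S c f0 f X L κ z cc φ ϑ u' T' := by
  unfold form lplE2
  rw [mul_expect]
  have hI : (S.sub u' T').I = Ico u' (u' + T') := rfl
  rw [hI]
  refine expect_congr rfl fun k hk => ?_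
  obtain ⟨hb1, hb2⟩ := hb k hk
  obtain ⟨b, hbb⟩ := Int.eq_ofNat_of_zero_le hb1
  have hbL : b ≤ L := by omega
  have hval : ∀ (v n : ℕ) (a : ℤ), v < L → n ≤ L → a = (n : ℤ) →
      ((v : ZMod N') + (a : ZMod N')).val = v + n := by
    intro v n a hv hn ha
    have : (v : ZMod N') + (a : ZMod N') = ((v + n : ℕ) : ZMod N') := by
      rw [ha]; push_cast; rfl
    rw [this, ZMod.val_natCast_of_lt (by omega)]
  rw [lpl_expect_range, expect_eq_sum_div_card, expect_eq_sum_div_card, card_range, card_range]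
  have h4L : N' = L + (N' - L) := by omega
  rw [show range N' = range (L + (N' - L)) from by rw [← h4L], sum_range_add]
  have hzero : ∑ x ∈ range (N' - L), ((if (((L + x : ℕ) : ZMod N')).val < L then
      f0 (z + ((((L + x : ℕ) : ZMod N')).val : ZMod N)) *
        e (ϑ * ((((L + x : ℕ) : ZMod N')).val : ℝ)) else 0) *
      ∏ i, (Fin.snoc (α := fun _ => ZMod N' → ℂ) (fun i y => f i (z + (y.val : ZMod N)))
        (fun y => cpf X L κ cc φ ϑ (y - (S.a c (Fin.last m) u' : ZMod N')).val) :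
        Fin (m + 1) → ZMod N' → ℂ) i
        (((L + x : ℕ) : ZMod N') + ((S.sub u' T').a c i k : ZMod N'))) = 0 := by
    refine sum_eq_zero fun x hx => ?_
    have hx := mem_range.1 hx
    rw [ZMod.val_natCast_of_lt (by omega), if_neg (by omega), zero_mul]
  rw [hzero, add_zero]
  have hL0 : (L : ℂ) ≠ 0 := by
    have : L ≠ 0 := by omega
    exact_mod_cast this
  have hmain : ∀ v ∈ range L, e (ϑ * ((S.a c (Fin.last m) k - S.a c (Fin.last m) u' : ℤ) : ℝ)) *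
      ((if ((v : ZMod N')).val < L then
      f0 (z + (((v : ZMod N')).val : ZMod N)) *
        e (ϑ * (((v : ZMod N')).val : ℝ)) else 0) *
      ∏ i, (Fin.snoc (α := fun _ => ZMod N' → ℂ) (fun i y => f i (z + (y.val : ZMod N)))
        (fun y => cpf X L κ cc φ ϑ (y - (S.a c (Fin.last m) u' : ZMod N')).val) :
        Fin (m + 1) → ZMod N' → ℂ) i
        ((v : ZMod N') + ((S.sub u' T').a c i k : ZMod N'))) =
      f0 (z + (v : ZMod N)) * (∏ i : Fin m, f i (z + (v : ZMod N) + (S.a c i.castSucc k : ZMod N))) *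
      (cpf X L κ cc φ ϑ (v + (S.a c (Fin.last m) k - S.a c (Fin.last m) u').toNat) *
      e (ϑ * ((v : ℝ) + ((S.a c (Fin.last m) k - S.a c (Fin.last m) u').toNat : ℝ)))) := by
    intro v hv
    have hv := mem_range.1 hv
    rw [ZMod.val_natCast_of_lt (by omega), if_pos hv, Fin.prod_univ_castSucc]
    simp only [Fin.snoc_castSucc, Fin.snoc_last]
    have e1 : ∀ i : Fin m, f i (z + ((((v : ZMod N') +
        ((S.sub u' T').a c i.castSucc k : ZMod N')).val : ℕ) : ZMod N)) =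
        f i (z + (v : ZMod N) + (S.a c i.castSucc k : ZMod N)) := by
      intro i
      obtain ⟨h1, h2⟩ := hai i k hk
      obtain ⟨n, hn⟩ := Int.eq_ofNat_of_zero_le h1
      have h3 : (S.sub u' T').a c i.castSucc k = (n : ℤ) := hn
      rw [hval v n _ hv (by omega) h3, hn]
      congr 1
      push_cast; ring
    simp only [e1]
    have e2 : (v : ZMod N') + ((S.sub u' T').a c (Fin.last m) k : ZMod N') -
        (S.a c (Fin.last m) u' : ZMod N') = (v : ZMod N') +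
        ((S.a c (Fin.last m) k - S.a c (Fin.last m) u' : ℤ) : ZMod N') := by
      have : (S.sub u' T').a c (Fin.last m) k = S.a c (Fin.last m) k := rfl
      rw [this]; push_cast; ring
    rw [e2, hval v b _ hv hbL hbb, hbb]
    simp only [Int.toNat_natCast, Int.cast_natCast]
    have e3 : e (ϑ * ((v : ℝ) + (b : ℝ))) = e (ϑ * (v : ℝ)) * e (ϑ * (b : ℝ)) := by
      rw [← e_add]; congr 1; ring
    rw [e3]
    ring
  have hN0 : (N' : ℂ) ≠ 0 := by exact_mod_cast NeZero.ne N'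
  rw [← mul_div_assoc, mul_sum, sum_congr rfl hmain]
  field_simp


/-! ### the window -/

/-- a window with a large exponential sum -/
theorem lpl2_window {m : ℕ} (S : Sys (m + 1)) (c : Fin (m + 1) → ℝ) (θ' : Fin (m + 1) → ℝ)
    (ϑ A : ℝ) (u' T' K q : ℕ) (hT' : 1 ≤ T') (hϑ : 2 * Real.pi * |ϑ| ≤ A / 2)
    (h : A ≤ 𝔼 k ∈ Ico u' (u' + T'), ‖𝔼 j ∈ range K,
      e (ϑ * ((S.a c (Fin.last m) (k + q * j) - S.a c (Fin.last m) u' : ℤ) : ℝ)) *
        e (∑ i, θ' i * S.P i * (S.t (k + q * j)) ^ (c i))‖) :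
    ∃ k, u' ≤ k ∧ k < u' + T' ∧ A / 2 ≤ ‖𝔼 j ∈ range K,
      e (∑ i, (θ' i * S.P i + (if i = Fin.last m then ϑ * S.P i else 0)) *
        ((((k + q * j : ℕ) : ℝ) + S.ρ) / S.D) ^ (c i))‖ := by
  obtain ⟨k, hk, hk2⟩ := exists_le_of_le_expect (nonempty_Ico.2 (by omega)) h
  obtain ⟨hk3, hk4⟩ := mem_Ico.1 hk
  refine ⟨k, hk3, hk4, ?_⟩
  obtain ⟨w, hw⟩ : ∃ w : ℂ, w = e (-(ϑ * ((S.a c (Fin.last m) u' : ℤ) : ℝ))) := ⟨_, rfl⟩
  have hwn : ‖w‖ = 1 := by rw [hw, norm_e]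
  have h2 : ‖(𝔼 j ∈ range K,
      e (ϑ * ((S.a c (Fin.last m) (k + q * j) - S.a c (Fin.last m) u' : ℤ) : ℝ)) *
        e (∑ i, θ' i * S.P i * (S.t (k + q * j)) ^ (c i))) -
      w * 𝔼 j ∈ range K, e (∑ i, (θ' i * S.P i + (if i = Fin.last m then ϑ * S.P i else 0)) *
        ((((k + q * j : ℕ) : ℝ) + S.ρ) / S.D) ^ (c i))‖ ≤ A / 2 := by
    rw [mul_expect, ← expect_sub_distrib]
    refine norm_expect_le_of5 _ _ ((by positivity : (0:ℝ) ≤ 2 * Real.pi * |ϑ|).trans hϑ)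
      fun j _ => le_trans ?_ hϑ
    have e1 : ∑ i, (θ' i * S.P i + (if i = Fin.last m then ϑ * S.P i else 0)) *
        ((((k + q * j : ℕ) : ℝ) + S.ρ) / S.D) ^ (c i) =
        ∑ i, θ' i * S.P i * (S.t (k + q * j)) ^ (c i) +
        ϑ * (S.P (Fin.last m) * (S.t (k + q * j)) ^ (c (Fin.last m))) := by
      have : ∀ i, (θ' i * S.P i + (if i = Fin.last m then ϑ * S.P i else 0)) *
          ((((k + q * j : ℕ) : ℝ) + S.ρ) / S.D) ^ (c i) =
          θ' i * S.P i * (S.t (k + q * j)) ^ (c i) +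
          (if i = Fin.last m then ϑ * (S.P i * (S.t (k + q * j)) ^ (c i)) else 0) := by
        intro i
        unfold Sys.t
        split_ifs <;> ring
      simp only [this]
      rw [sum_add_distrib]
      simp
    rw [e1, e_add]
    have e2 : e (ϑ * ((S.a c (Fin.last m) (k + q * j) - S.a c (Fin.last m) u' : ℤ) : ℝ)) =
        w * e (ϑ * ((S.a c (Fin.last m) (k + q * j) : ℤ) : ℝ)) := by
      rw [hw, ← e_add]
      congr 1
      push_cast; ring
    rw [e2]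
    have e3 : w * e (ϑ * ((S.a c (Fin.last m) (k + q * j) : ℤ) : ℝ)) *
        e (∑ i, θ' i * S.P i * (S.t (k + q * j)) ^ (c i)) -
        w * (e (∑ i, θ' i * S.P i * (S.t (k + q * j)) ^ (c i)) *
        e (ϑ * (S.P (Fin.last m) * (S.t (k + q * j)) ^ (c (Fin.last m))))) =
        w * e (∑ i, θ' i * S.P i * (S.t (k + q * j)) ^ (c i)) *
        (e (ϑ * ((S.a c (Fin.last m) (k + q * j) : ℤ) : ℝ)) -
        e (ϑ * (S.P (Fin.last m) * (S.t (k + q * j)) ^ (c (Fin.last m))))) := by ring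
    rw [e3, norm_mul, norm_mul, hwn, norm_e, one_mul, one_mul]
    refine (norm_e_sub_e_le _ _).trans ?_
    rw [← mul_sub, abs_mul]
    have h5 : |((S.a c (Fin.last m) (k + q * j) : ℤ) : ℝ) -
        S.P (Fin.last m) * (S.t (k + q * j)) ^ (c (Fin.last m))| ≤ 1 := by
      unfold Sys.a
      have h6 := Int.floor_le (S.P (Fin.last m) * (S.t (k + q * j)) ^ (c (Fin.last m)))
      have h7 := Int.lt_floor_add_one (S.P (Fin.last m) * (S.t (k + q * j)) ^ (c (Fin.last m)))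
      rw [abs_le]
      constructor <;> linarith
    calc 2 * Real.pi * (|ϑ| * |((S.a c (Fin.last m) (k + q * j) : ℤ) : ℝ) -
        S.P (Fin.last m) * (S.t (k + q * j)) ^ (c (Fin.last m))|) ≤ 2 * Real.pi * (|ϑ| * 1) := by
          gcongr
      _ = 2 * Real.pi * |ϑ| := by ring
  have h3 := norm_sub_norm_le (𝔼 j ∈ range K,
      e (ϑ * ((S.a c (Fin.last m) (k + q * j) - S.a c (Fin.last m) u' : ℤ) : ℝ)) *
        e (∑ i, θ' i * S.P i * (S.t (k + q * j)) ^ (c i)))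
      (w * 𝔼 j ∈ range K, e (∑ i, (θ' i * S.P i + (if i = Fin.last m then ϑ * S.P i else 0)) *
        ((((k + q * j : ℕ) : ℝ) + S.ρ) / S.D) ^ (c i)))
  rw [norm_mul, hwn, one_mul] at h3
  linarith

/-! ### classes of the transported functions -/

theorem lpl2_classes {N N' : ℕ} [NeZero N] (X q0 Q : ℕ) (hX : 1 ≤ X) (hq0 : 1 ≤ q0) (hQX : Q ≤ X)
    (hQ : 0 < Q) (I W M : ℝ) (hI : 2 ≤ I) (hIW : I ≤ W) (hWM : 32 * W ≤ M) (z : ZMod N) (ϑ : ℝ)
    (hϑQ : |ϑ| ≤ 2 * W / Q) [NeZero N'] (hN' : 4 * (X * q0) ≤ N') (f0 : ZMod N → ℂ) (hf0 : Adm I Q f0) :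
    Adm (N := N') M Q (fun y => if y.val < X * q0 then
      f0 (z + (y.val : ZMod N)) * e (ϑ * (y.val : ℝ)) else 0) := by
  have hQ0 : (0 : ℝ) < Q := by exact_mod_cast hQ
  have hQN' : (Q : ℝ) ≤ (N' : ℝ) := by
    have : Q ≤ 4 * (X * q0) := by nlinarith
    exact_mod_cast this.trans hN'
  have hb0 : ∀ t : ℕ, ‖(if t < X * q0 then f0 (z + (t : ZMod N)) * e (ϑ * (t : ℝ)) else 0)‖ ≤ 1 := by
    intro t
    split_ifs
    · rw [norm_mul, norm_e, mul_one]; exact hf0.bdd _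
    · simp
  refine ⟨fun y => hb0 y.val, ?_⟩
  have h1 := lpl_wrap (N' := N')
    (fun t => if t < X * q0 then f0 (z + (t : ZMod N)) * e (ϑ * (t : ℝ)) else 0)
    (1 + I + 2 * Real.pi * (2 * W)) Q hQ0 hQN' hb0
    (fun a l => lpl_f0_tv f0 hf0.bdd I Q ϑ (2 * W) hQ0 hf0.tv hϑQ (X * q0) z a l)
  refine h1.mono ?_ hQ0 le_rfl
  refine le_trans ?_ hWM
  have hπ : Real.pi ≤ 3.15 := Real.pi_lt_d2.le
  have h2 : Real.pi * W ≤ 3.15 * W := mul_le_mul_of_nonneg_right hπ (by linarith)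
  linarith

theorem lpl2_classes_i {N N' : ℕ} [NeZero N] (X q0 Q : ℕ) (hX : 1 ≤ X) (hq0 : 1 ≤ q0) (hQX : Q ≤ X)
    (hQ : 0 < Q) (I W M : ℝ) (hI : 2 ≤ I) (hIW : I ≤ W) (hWM : 32 * W ≤ M) (z : ZMod N)
    [NeZero N'] (hN' : 4 * (X * q0) ≤ N') (f : ZMod N → ℂ) (hf : Adm I Q f) :
    Adm (N := N') M Q (fun y => f (z + (y.val : ZMod N))) := by
  have hQ0 : (0 : ℝ) < Q := by exact_mod_cast hQ
  have hQN' : (Q : ℝ) ≤ (N' : ℝ) := by
    have : Q ≤ 4 * (X * q0) := by nlinarith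
    exact_mod_cast this.trans hN'
  refine ⟨fun y => hf.bdd _, ?_⟩
  have h1 := lpl_wrap (N' := N') (fun t => f (z + (t : ZMod N))) I Q hQ0 hQN'
    (fun t => hf.bdd _) (fun a l => lpl_fi_tv f I Q hf.tv z a l)
  refine h1.mono ?_ hQ0 le_rfl
  refine le_trans ?_ hWM
  linarith

theorem lpl2_classes_c {N' : ℕ} (X q0 κ : ℕ) (hX : 1 ≤ X) (hq0 : 1 ≤ q0) (W M : ℝ) (hW : 2 ≤ W)
    (hWM : 32 * W ≤ M) (cc : ℕ → ℂ) (φ : ℕ → ℝ) (ϑ : ℝ) (hcc : ∀ j, ‖cc j‖ ≤ 1)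
    (hφ : ∀ j, j / q0 = κ → cc j ≠ 0 → |φ j - ϑ| ≤ W / X) [NeZero N'] (hN' : 4 * (X * q0) ≤ N')
    (t : ZMod N') :
    Adm (N := N') M X (fun y => cpf X (X * q0) κ cc φ ϑ (y - t).val) := by
  have hX0 : (0 : ℝ) < X := by exact_mod_cast hX
  have hXN' : (X : ℝ) ≤ (N' : ℝ) := by
    have : X ≤ 4 * (X * q0) := by nlinarith
    exact_mod_cast this.trans hN'
  have h1 := lpl_wrap (N' := N') (cpf X (X * q0) κ cc φ ϑ)
    (2 * Real.pi * W + 2) X hX0 hXN' (cpf_norm X (X * q0) κ cc φ ϑ hcc)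
    (cpf_tv X q0 κ hX hq0 cc φ ϑ W (by linarith) hcc hφ)
  have h2 : Adm (N := N') M X (fun y => cpf X (X * q0) κ cc φ ϑ y.val) := by
    refine ⟨fun y => cpf_norm X (X * q0) κ cc φ ϑ hcc _, ?_⟩
    refine h1.mono ?_ hX0 le_rfl
    refine le_trans ?_ hWM
    have hπ : Real.pi ≤ 3.15 := Real.pi_lt_d2.le
    have h2 : Real.pi * W ≤ 3.15 * W := mul_le_mul_of_nonneg_right hπ (by linarith)
    linarith
  have h3 := h2.shift (-t)
  simpa only [sub_eq_add_neg] using h3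

end

end Pool.Agent.Helper67.NX2
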