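import Pool.Agent.Helper73.NX2.LpLocalAux

/-!
# Project NX2, A10: block phases, localisation to one cell (mixed exponents)
-/

set_option autoImplicit false

open Finset
open scoped BigOperators ComplexConjugate

namespace Pool.Agent.Helper67.NX2

open Pool.Agent.Helper57.NX

noncomputable section

/-- The statement of `ratl` (module A5). -/
def RatlC : Prop :=
    ∀ {m : ℕ} (c : Fin m → ℝ) (_ : StrictMono c) (_ : ∀ i, 0 < c i)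
    (a ε : ℝ) (_ : 0 < ε),
    ∃ x0 : ℝ, 0 < x0 ∧ ∃ C : ℕ, ∃ σ : ℝ, 0 < σ ∧ ∃ D0 : ℝ, ∀ D : ℝ, D0 ≤ D →
    ∀ ρ : ℝ, 0 ≤ ρ → ρ ≤ 1 → ∀ lam : ℕ, 1 ≤ lam → (∃ r : ℕ, ρ * lam = r) →
    ∀ δ : ℝ, D ^ (-σ) ≤ δ → δ ≤ 1 / 2 → (lam : ℝ) ≤ δ⁻¹ →
    ∀ v : Fin m → ℝ, (∀ i, |v i| ≤ D ^ a) →
    ∀ q k K : ℕ, 1 ≤ q → (q : ℝ) ≤ δ⁻¹ → D ≤ k → (k : ℝ) ≤ 3 * D → D ^ (1 - x0) ≤ K →
    (q : ℝ) * K ≤ D →
    δ ≤ ‖𝔼 j ∈ range K, e (∑ i, v i * ((((k + q * j : ℕ) : ℝ) + ρ) / D) ^ (c i))‖ →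
    (∀ i, ¬ IsN (c i) → |v i| ≤ D ^ ε) ∧
    ∃ q' : ℕ, 1 ≤ q' ∧ (q' : ℝ) ≤ δ⁻¹ ^ C ∧ ∀ (i : Fin m) (d : ℕ), c i = d →
      dint (q' * (v i / (lam * D) ^ d)) ≤ D ^ (ε - d)

private theorem lpl2_strictMono {m : ℕ} {c : Fin m → ℝ} (h : Ex c) : StrictMono c :=
  fun i j hij => by linarith [h.gap i j hij]

private theorem lpl2_dint {x : ℝ} (h : |x| < 1 / 2) : dint x = |x| := by
  have h1 := abs_lt.1 h
  have h2 : round x = 0 := round_eq_zero_iff.2 ⟨by linarith [h1.1], h1.2⟩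
  unfold dint
  rw [h2, Int.cast_zero, sub_zero]

theorem lp_local_of (hRatl : RatlC) (m : ℕ) (c : Fin (m + 1) → ℝ) (hc : Ex c) (s s0 : ℝ) (hs0 : 0 ≤ s0)
    (hs0s : s0 ≤ s) (hs : s < c (Fin.last m)) (hnat : IsN (c (Fin.last m)) → 0 < s0)
    (hD : ∀ ε : ℝ, 0 < ε → DsPm m c s ε) :
    ∃ ε0 : ℝ, 0 < ε0 ∧ ∀ ε : ℝ, 0 < ε → ε ≤ ε0 → ∀ n : ℕ,
    ∃ x0 : ℝ, 0 < x0 ∧ ∃ C : ℕ, ∃ σ : ℝ, 0 < σ ∧ ∃ D0 : ℝ,
    ∀ (S : Sys (m + 1)) (N : ℕ) [NeZero N] (lam : ℕ), D0 ≤ S.D → IG S c N x0 lam →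
    ∀ δ : ℝ, S.D ^ (-σ) ≤ δ → δ ≤ 1 / 2 → (lam : ℝ) ≤ δ⁻¹ →
    ∀ X : ℕ, S.Q ≤ X → S.Q * S.D ^ (s - σ) ≤ (X : ℝ) → (X : ℝ) ≤ S.Q * S.D ^ s →
    ∀ q0 : ℕ, 1 ≤ q0 → S.P (Fin.last m) * S.D ^ (-ε) / 2 ≤ (X : ℝ) * q0 →
      (X : ℝ) * q0 ≤ S.P (Fin.last m) * S.D ^ (-ε) →
    ∀ (f0 : ZMod N → ℂ) (f : Fin m → ZMod N → ℂ),
    Adm δ⁻¹ S.Q f0 → (∀ i, Adm δ⁻¹ S.Q (f i)) →
    ∀ (r : ZMod N) (cc : ℕ → ℂ) (φ : ℕ → ℝ) (θ : ℕ → ℝ), (∀ j, ‖cc j‖ ≤ 1) →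
    (∀ j, |φ j| ≤ δ⁻¹ / (S.Q * S.D ^ s0)) →
    (∀ j, cc j ≠ 0 → |φ j - θ (j / q0)| ≤ δ⁻¹ ^ n / X) →
    δ ^ n ≤ ‖form S c 1 f0 (Fin.snoc (α := fun _ => ZMod N → ℂ) f (bphase X r cc φ))‖ →
    ∃ j, cc j ≠ 0 ∧ |φ j| ≤ δ⁻¹ ^ C / X := by
  set cl := c (Fin.last m) with hcl
  have hcl2 : 2 ≤ cl := hc.two _
  have hcl0 : 0 < cl := by linarith
  have hc0 : ∀ i, 0 < c i := fun i => by linarith [hc.two i]
  have hcs : StrictMono c := lpl2_strictMono hc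
  have hgap : ∀ i : Fin m, 2 ≤ cl - c i.castSucc := fun i => by
    linarith [hc.gap i.castSucc (Fin.last m) (Fin.castSucc_lt_last i)]
  obtain ⟨t1, ht1, ht1s⟩ : ∃ t1 : ℝ, 0 < t1 ∧ (IsN cl → t1 ≤ s0) := by
    by_cases h : IsN cl
    · exact ⟨s0, hnat h, fun _ => le_rfl⟩
    · exact ⟨1, one_pos, fun h' => (h h').elim⟩
  obtain ⟨xE, hxE, CR, σE, hσE, DE, HE⟩ := hRatl c hcs hc0 (cl + 5) ((cl - s) / 8) (by linarith)
  obtain ⟨x2, hx2, C2, σ2, hσ2, D2, H2⟩ := hD (min (xE / 2) (1 / 2)) (by positivity)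
  have hmin0 : 0 < min (min (x2 / 4) ((cl - s) / 8)) (1 / 8) := by
    have : 0 < (cl - s) / 8 := by linarith
    positivity
  refine ⟨min (min (x2 / 4) ((cl - s) / 8)) (1 / 8), hmin0, fun ε hε hεle n0 => ?_⟩
  have hε1 : ε ≤ x2 / 4 := hεle.trans ((min_le_left _ _).trans (min_le_left _ _))
  have hε2 : ε ≤ (cl - s) / 8 := hεle.trans ((min_le_left _ _).trans (min_le_right _ _))
  have hε4 : ε ≤ 1 / 8 := hεle.trans (min_le_right _ _)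
  obtain ⟨n, hn⟩ : ∃ n, n = n0 + 1 := ⟨_, rfl⟩
  obtain ⟨p1, hp1⟩ : ∃ p1, p1 = (n + 7) * (C2 + 1) + 1 := ⟨_, rfl⟩
  have hp1n : n + 7 ≤ p1 := by rw [hp1]; nlinarith
  have hp1C : (n + 7) * C2 + 1 ≤ p1 := by rw [hp1]; nlinarith
  obtain ⟨p, hp⟩ : ∃ p, p = p1 * (CR + 1) := ⟨_, rfl⟩
  have hp1p : p1 ≤ p := by rw [hp]; nlinarith
  have hp1R : p1 * CR ≤ p := by rw [hp]; nlinarith
  have hpn : n + 7 ≤ p := hp1n.trans hp1p
  have hpC : (n + 7) * C2 ≤ p := by omega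
  have hp0 : 0 < p := by omega
  obtain ⟨ε2, hε2'⟩ : ∃ ε2, ε2 = min (xE / 2) (1 / 2) := ⟨_, rfl⟩
  have hε2a : ε2 ≤ xE / 2 := by rw [hε2']; exact min_le_left _ _
  have hε2b : ε2 ≤ 1 / 2 := by rw [hε2']; exact min_le_right _ _
  have hε20 : 0 < ε2 := by rw [hε2']; positivity
  rw [← hε2'] at H2
  obtain ⟨Z, hZ⟩ : ∃ Z, Z = min (min σ2 (ε / 8)) (min (min (1 / 2) ε2) (min (σE / 2) (t1 / 4))) :=
    ⟨_, rfl⟩
  have hZ0 : 0 < Z := by rw [hZ]; positivity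
  have hZ1 : Z ≤ σ2 := by rw [hZ]; exact (min_le_left _ _).trans (min_le_left _ _)
  have hZ2 : Z ≤ ε / 8 := by rw [hZ]; exact (min_le_left _ _).trans (min_le_right _ _)
  have hZ3 : Z ≤ 1 / 2 := by
    rw [hZ]; exact (min_le_right _ _).trans ((min_le_left _ _).trans (min_le_left _ _))
  have hZ5 : Z ≤ ε2 := by
    rw [hZ]; exact (min_le_right _ _).trans ((min_le_left _ _).trans (min_le_right _ _))
  have hZ4 : Z ≤ σE / 2 := by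
    rw [hZ]; exact (min_le_right _ _).trans ((min_le_right _ _).trans (min_le_left _ _))
  have hZ6 : Z ≤ t1 / 4 := by
    rw [hZ]; exact (min_le_right _ _).trans ((min_le_right _ _).trans (min_le_right _ _))
  obtain ⟨κ1, hκ1⟩ : ∃ κ1, κ1 = cl * 3 ^ cl := ⟨_, rfl⟩
  have hκ10 : 0 < κ1 := by rw [hκ1]; positivity
  obtain ⟨K0, hK0⟩ : ∃ K0 : ℝ, K0 = 16 * (2 * κ1 + 1) + 2 * 3 ^ cl + 4 := ⟨_, rfl⟩
  have h3cl : (0 : ℝ) < 3 ^ cl := by positivity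
  have hev : ∀ᶠ D : ℝ in Filter.atTop, 26 ≤ D ∧ D2 ≤ D ∧ DE ≤ D ∧ K0 ≤ D ^ (ε / 2) ∧
      7 ≤ D ^ (t1 / 4) ∧ 2 ≤ D ^ (xE / 2) := by
    refine (Filter.eventually_ge_atTop _).and ((Filter.eventually_ge_atTop _).and
      ((Filter.eventually_ge_atTop _).and (((tendsto_rpow_atTop (by positivity)).eventually_ge_atTop _).and
      (((tendsto_rpow_atTop (by positivity)).eventually_ge_atTop _).and
      ((tendsto_rpow_atTop (by positivity)).eventually_ge_atTop _)))))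
  obtain ⟨D0, hD0⟩ := Filter.eventually_atTop.1 hev
  have hp0r : (0 : ℝ) < p := by exact_mod_cast hp0
  refine ⟨ε / 4, by positivity, p + 2, Z / p, by positivity, D0, ?_⟩
  intro S N _ lam hSD hIG δ hδσ hδ2 hlam X hQX hX1 hX2 q0 hq0 hXq1 hXq2 f0 f hf0 hf r cc φ θ hcc hφ1
    hφ2 hform
  have hG : Good S c N (ε / 4) := hIG.good
  obtain ⟨hD26, hDD2, hDDE, hDK0, hDt1, hDxE⟩ := hD0 S.D hSD
  have hD0 : 0 < S.D := by linarith
  have hD1 : 1 ≤ S.D := by linarith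
  have hδ0 : 0 < δ := lt_of_lt_of_le (Real.rpow_pos_of_pos hD0 _) hδσ
  have hδ1 : δ ≤ 1 := by linarith
  have hφ1w : ∀ j, |φ j| ≤ δ⁻¹ / S.Q := by
    intro j
    refine (hφ1 j).trans ?_
    have hQ2' : S.D ^ (2 : ℝ) ≤ (S.Q : ℝ) := hG.Q1
    have hQ0' : (0 : ℝ) < S.Q := (Real.rpow_pos_of_pos hD0 _).trans_le hQ2'
    exact div_le_div_of_nonneg_left (inv_nonneg.2 hδ0.le) hQ0'
      (le_mul_of_one_le_right hQ0'.le (Real.one_le_rpow hD1 hs0))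
  -- powers of `δ`
  have hδp : S.D ^ (-Z) ≤ δ ^ p := by
    have h1 : (S.D ^ (-(Z / p))) ^ p = S.D ^ (-Z) := by
      rw [← Real.rpow_mul_natCast hD0.le]
      congr 1
      field_simp
    rw [← h1]
    exact pow_le_pow_left₀ (Real.rpow_nonneg hD0.le _) hδσ p
  have hδq : ∀ q, q ≤ p → ∀ y : ℝ, Z ≤ y → S.D ^ (-y) ≤ δ ^ q := by
    intro q hq y hy
    calc S.D ^ (-y) ≤ S.D ^ (-Z) := Real.rpow_le_rpow_of_exponent_le hD1 (by linarith)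
      _ ≤ δ ^ p := hδp
      _ ≤ δ ^ q := pow_le_pow_of_le_one hδ0.le hδ1 hq
  have hexp : ∀ a b : ℝ, a ≤ b → S.D ^ a ≤ S.D ^ b := fun a b hab =>
    Real.rpow_le_rpow_of_exponent_le hD1 hab
  have hadd : ∀ a b : ℝ, S.D ^ a * S.D ^ b = S.D ^ (a + b) := fun a b => (Real.rpow_add hD0 a b).symm
  have hK : ∀ k a b : ℝ, k ≤ K0 → a + ε / 2 ≤ b → k * S.D ^ a ≤ S.D ^ b := by
    intro k a b hk hab
    calc k * S.D ^ a ≤ S.D ^ (ε / 2) * S.D ^ a :=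
          mul_le_mul_of_nonneg_right (hk.trans hDK0) (Real.rpow_nonneg hD0.le _)
      _ = S.D ^ (ε / 2 + a) := hadd _ _
      _ ≤ S.D ^ b := hexp _ _ (by linarith)
  have hpos : ∀ a : ℝ, 0 < S.D ^ a := fun a => Real.rpow_pos_of_pos hD0 a
  -- sizes
  have hQ2 : S.D ^ (2 : ℝ) ≤ (S.Q : ℝ) := hG.Q1
  have hQ0 : (0 : ℝ) < S.Q := (hpos _).trans_le hQ2
  have hP0 : ∀ i, 0 < S.P i := fun i => lt_of_lt_of_le (mul_pos hQ0 (hpos _)) (hG.P1 i)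
  obtain ⟨P, hP⟩ : ∃ P, P = S.P (Fin.last m) := ⟨_, rfl⟩
  have hPpos : 0 < P := by rw [hP]; exact hP0 _
  rw [← hP] at hXq1 hXq2
  have hP1 : S.Q * S.D ^ (cl - ε / 4) ≤ P := by rw [hP]; exact hG.P1 _
  have hX1n : 1 ≤ X := by
    have : 0 < S.Q := by exact_mod_cast hQ0
    omega
  have hX0 : (0 : ℝ) < X := by exact_mod_cast hX1n
  have hQXr : (S.Q : ℝ) ≤ X := by exact_mod_cast hQX
  obtain ⟨L, hL⟩ : ∃ L, L = X * q0 := ⟨_, rfl⟩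
  have hL1 : 1 ≤ L := by rw [hL]; exact Nat.mul_pos hX1n hq0
  have hLr : (L : ℝ) = (X : ℝ) * q0 := by rw [hL]; push_cast; rfl
  rw [← hLr] at hXq1 hXq2
  have hXL : (X : ℝ) ≤ L := by
    rw [hLr]
    have : (1 : ℝ) ≤ q0 := by exact_mod_cast hq0
    exact le_mul_of_one_le_right hX0.le this
  have hL0 : (0 : ℝ) < L := by exact_mod_cast hL1
  -- the short interval
  obtain ⟨T', hT'⟩ : ∃ T', T' = ⌈S.D ^ (1 - 2 * ε)⌉₊ := ⟨_, rfl⟩
  have hT'1 : S.D ^ (1 - 2 * ε) ≤ T' := by rw [hT']; exact Nat.le_ceil _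
  have hone : 1 ≤ S.D ^ (1 - 2 * ε) := Real.one_le_rpow hD1 (by linarith)
  have hT'2 : (T' : ℝ) ≤ 2 * S.D ^ (1 - 2 * ε) := by
    have := Nat.ceil_lt_add_one (hpos (1 - 2 * ε)).le
    rw [← hT'] at this
    linarith
  have hT'3 : 1 ≤ T' := by
    have : (1 : ℝ) ≤ T' := hone.trans hT'1
    exact_mod_cast this
  have hn1 : n ≤ p := by omega
  have hδn : S.D ^ (-(ε / 8)) ≤ δ ^ n := hδq n hn1 _ hZ2
  have hδn0 : 0 < δ ^ n := pow_pos hδ0 n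
  have hTT : (T' : ℝ) ≤ δ ^ n / 2 * S.T := by
    have h1 : S.D ^ (1 - ε / 4) ≤ S.T := hG.T1
    have h2 : 4 * S.D ^ (1 - 2 * ε) ≤ S.D ^ (-(ε / 8) + (1 - ε / 4)) :=
      hK 4 _ _ (by rw [hK0]; linarith) (by linarith)
    rw [← hadd] at h2
    have h3 : S.D ^ (-(ε / 8)) * S.D ^ (1 - ε / 4) ≤ δ ^ n * S.T :=
      mul_le_mul hδn h1 (hpos _).le hδn0.le
    linarith
  have hLN : ((X * q0 : ℕ) : ℝ) ≤ δ ^ n / 4 * N := by
    rw [← hL]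
    have h1 : P ≤ N * S.D ^ (ε / 4) := by rw [hP]; exact hG.N1 _
    have h2 : 4 * S.D ^ (ε / 4 + -ε) ≤ S.D ^ (-(ε / 8)) :=
      hK 4 _ _ (by rw [hK0]; linarith) (by linarith)
    have h3 : (L : ℝ) ≤ N * S.D ^ (ε / 4) * S.D ^ (-ε) :=
      hXq2.trans (mul_le_mul_of_nonneg_right h1 (hpos _).le)
    rw [mul_assoc, hadd] at h3
    have hN0 : (0 : ℝ) ≤ N := by positivity
    have h4 : (N : ℝ) * (4 * S.D ^ (ε / 4 + -ε)) ≤ N * δ ^ n :=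
      mul_le_mul_of_nonneg_left (h2.trans hδn) hN0
    linarith
  have hPD : 1 ≤ P * S.D ^ (-(2 * ε)) := by
    have h1 : S.D ^ (2 : ℝ) * S.D ^ (cl - ε / 4) ≤ P :=
      (mul_le_mul_of_nonneg_right hQ2 (hpos _).le).trans hP1
    rw [hadd] at h1
    have h2 : S.D ^ (2 + (cl - ε / 4)) * S.D ^ (-(2 * ε)) ≤ P * S.D ^ (-(2 * ε)) :=
      mul_le_mul_of_nonneg_right h1 (hpos _).le
    rw [hadd] at h2
    exact (Real.one_le_rpow hD1 (by linarith)).trans h2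
  obtain ⟨Bd, hBd⟩ : ∃ Bd, Bd = ⌊P * (κ1 * (T' / S.D)) + 1⌋₊ := ⟨_, rfl⟩
  have hBd0 : 0 ≤ P * (κ1 * (T' / S.D)) + 1 := by positivity
  have hTD : (T' : ℝ) / S.D ≤ 2 * S.D ^ (-(2 * ε)) := by
    rw [div_le_iff₀ hD0]
    have : S.D ^ (-(2 * ε)) * S.D = S.D ^ (1 - 2 * ε) := by
      conv_lhs => rw [← Real.rpow_one S.D]
      rw [← Real.rpow_mul hD0.le, one_mul, hadd]
      congr 1; ring
    rw [mul_assoc, this]
    exact hT'2
  have hBdle : (Bd : ℝ) ≤ δ ^ n / 8 * ((X * q0 : ℕ) : ℝ) := by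
    rw [← hL]
    have h1 : (Bd : ℝ) ≤ P * (κ1 * (T' / S.D)) + 1 := by rw [hBd]; exact Nat.floor_le hBd0
    have h2 : P * (κ1 * (T' / S.D)) ≤ P * (κ1 * (2 * S.D ^ (-(2 * ε)))) := by gcongr
    have h3 : 16 * (2 * κ1 + 1) * S.D ^ (-(2 * ε)) ≤ S.D ^ (-(ε / 8) + -ε) :=
      hK _ _ _ (by rw [hK0]; linarith) (by linarith)
    rw [← hadd] at h3
    have h4 : S.D ^ (-(ε / 8)) * (P * S.D ^ (-ε) / 2) ≤ δ ^ n * L :=
      mul_le_mul hδn hXq1 (by have := hpos (-ε); positivity) hδn0.le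
    have h5 : P * (16 * (2 * κ1 + 1) * S.D ^ (-(2 * ε))) ≤ P * (S.D ^ (-(ε / 8)) * S.D ^ (-ε)) :=
      mul_le_mul_of_nonneg_left h3 hPpos.le
    linarith
  have hu12 : ∀ u' : ℕ, S.u ≤ u' → u' + T' ≤ S.u + S.T →
      S.D ≤ (u' : ℝ) ∧ (u' : ℝ) + T' ≤ 2 * S.D := by
    intro u' h1 h2
    have h3 : (S.u : ℝ) ≤ u' := by exact_mod_cast h1
    have h4 : (u' : ℝ) + T' ≤ S.u + S.T := by exact_mod_cast h2
    exact ⟨hG.u1.trans h3, h4.trans hG.u2⟩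
  have hb : ∀ u' k : ℕ, S.u ≤ u' → u' ≤ k → k < u' + T' → u' + T' ≤ S.u + S.T →
      0 ≤ S.a c (Fin.last m) k - S.a c (Fin.last m) u' ∧
      S.a c (Fin.last m) k - S.a c (Fin.last m) u' ≤ Bd := by
    intro u' k h1 h2 h3 h4
    obtain ⟨h5, h6⟩ := hu12 u' h1 h4
    have h7 := lpl_b S c (Fin.last m) hcl0 hG.ρ0 hG.ρ1 hD1 (hP0 _).le T' u' k h5 h2 h3 h6
    refine ⟨h7.1.1, ?_⟩
    have h8 := h7.1.2
    rw [← hcl, ← hκ1, ← hP] at h8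
    have h9 : S.a c (Fin.last m) k - S.a c (Fin.last m) u' ≤ ⌊P * (κ1 * (T' / S.D)) + 1⌋ :=
      Int.le_floor.2 h8
    rw [hBd, ← Int.natCast_floor_eq_floor hBd0] at *
    exact h9
  have hPi : ∀ i : Fin m, S.P i.castSucc * 3 ^ (c i.castSucc) ≤ L := by
    intro i
    have h1 : S.P i.castSucc ≤ S.Q * S.D ^ (c i.castSucc + ε / 4) := hG.P2 _
    have h2 : c i.castSucc ≤ cl - 2 := by linarith [hgap i]
    have h3 : (3 : ℝ) ^ (c i.castSucc) ≤ 3 ^ cl :=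
      Real.rpow_le_rpow_of_exponent_le (by norm_num) (by linarith)
    have h4 : S.D ^ (c i.castSucc + ε / 4) ≤ S.D ^ (cl - 2 + ε / 4) := hexp _ _ (by linarith)
    have h5 : 2 * 3 ^ cl * S.D ^ (cl - 2 + ε / 4) ≤ S.D ^ (cl - ε / 4 + -ε) :=
      hK _ _ _ (by rw [hK0]; linarith) (by linarith)
    rw [← hadd (cl - ε / 4) (-ε)] at h5
    have h6 : S.Q * S.D ^ (cl - ε / 4) * S.D ^ (-ε) ≤ P * S.D ^ (-ε) :=
      mul_le_mul_of_nonneg_right hP1 (hpos _).le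
    calc S.P i.castSucc * 3 ^ (c i.castSucc) ≤ (S.Q * S.D ^ (cl - 2 + ε / 4)) * 3 ^ cl := by
          refine mul_le_mul (h1.trans (mul_le_mul_of_nonneg_left h4 hQ0.le)) h3 (by positivity) ?_
          have := hpos (cl - 2 + ε / 4)
          positivity
      _ = S.Q * (2 * 3 ^ cl * S.D ^ (cl - 2 + ε / 4)) / 2 := by ring
      _ ≤ S.Q * (S.D ^ (cl - ε / 4) * S.D ^ (-ε)) / 2 :=
          div_le_div_of_nonneg_right (mul_le_mul_of_nonneg_left h5 hQ0.le) (by norm_num)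
      _ ≤ P * S.D ^ (-ε) / 2 := by linarith
      _ ≤ L := hXq1
  -- localisation
  have hform' : δ ^ n ≤ ‖form S c 1 f0 (Fin.snoc (α := fun _ => ZMod N → ℂ) f (bphase X r cc φ))‖ := by
    refine le_trans ?_ hform
    rw [hn]
    exact pow_le_pow_of_le_one hδ0.le hδ1 (by omega)
  obtain ⟨u', κ, hu1, hu2, hκ, hE2⟩ := lpl_cell S c (δ ^ n) hδn0 X q0 T' Bd hX1n hq0 hT'3 hTT hLN hb
    hBdle f0 f hf0.bdd (fun i => (hf i).bdd) r cc φ θ hcc hform'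
  obtain ⟨hDu, hDu2⟩ := hu12 u' hu1 hu2
  obtain ⟨z, hz⟩ : ∃ z : ZMod N, z = r + ((κ * (X * q0) : ℕ) : ZMod N) -
    (S.a c (Fin.last m) u' : ZMod N) := ⟨_, rfl⟩
  rw [← hz] at hE2
  obtain ⟨j0, hj0, hcj0⟩ : ∃ j, j / q0 = κ ∧ cc j ≠ 0 := by
    by_contra hcon
    push Not at hcon
    have hw0 : ∀ w, cpf X (X * q0) κ cc φ (θ κ) w = 0 := by
      intro w
      unfold cpf
      split_ifs with hw
      · rw [hcon _ (lpl_cell_index X q0 κ w hX1n hq0 hw), zero_mul]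
      · rfl
    have h0 : lplE2 S c f0 f X (X * q0) κ z cc φ (θ κ) u' T' = 0 := by
      unfold lplE2
      refine expect_eq_zero fun k _ => expect_eq_zero fun y _ => ?_
      rw [hw0, zero_mul, mul_zero]
    rw [h0, norm_zero] at hE2
    linarith
  obtain ⟨W, hW⟩ : ∃ W, W = δ⁻¹ ^ n := ⟨_, rfl⟩
  obtain ⟨ϑ, hϑ⟩ : ∃ ϑ, ϑ = θ κ := ⟨_, rfl⟩
  have hinv : 2 ≤ δ⁻¹ := by
    rw [le_inv_comm₀ (by norm_num) hδ0]; linarith
  have hinv1 : 1 ≤ δ⁻¹ := by linarith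
  have hWδ : δ⁻¹ ≤ W := by
    rw [hW]; exact le_self_pow₀ hinv1 (by omega)
  have hW0 : 0 < W := by linarith
  have hφθ : ∀ j, j / q0 = κ → cc j ≠ 0 → |φ j - ϑ| ≤ W / X := by
    intro j hj hcj
    have := hφ2 j hcj
    rw [hj, ← hϑ] at this
    refine this.trans ?_
    rw [hW, hn]
    exact div_le_div_of_nonneg_right (pow_le_pow_right₀ hinv1 (by omega)) hX0.le
  have hϑQ : |ϑ| ≤ 2 * W / S.Q := by
    have h1 := hφθ j0 hj0 hcj0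
    have h2 := hφ1w j0
    have h3 : |ϑ| ≤ |φ j0| + |φ j0 - ϑ| := by
      have := abs_sub_abs_le_abs_sub ϑ (φ j0)
      rw [abs_sub_comm] at this
      linarith
    have h4 : W / X ≤ W / S.Q := div_le_div_of_nonneg_left hW0.le hQ0 hQXr
    have h5 : δ⁻¹ / S.Q ≤ W / S.Q := div_le_div_of_nonneg_right hWδ hQ0.le
    have h6 : 2 * W / S.Q = W / S.Q + W / S.Q := by ring
    rw [h6]
    linarith
  have hinvq : ∀ q, q ≤ p → ∀ y : ℝ, Z ≤ y → δ⁻¹ ^ q ≤ S.D ^ y := by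
    intro q hq y hy
    have h1 := hδq q hq y hy
    rw [Real.rpow_neg hD0.le] at h1
    rw [inv_pow]
    exact (inv_le_comm₀ (pow_pos hδ0 q) (hpos y)).2 h1
  -- the new parameter
  obtain ⟨δ', hδ'⟩ : ∃ δ', δ' = δ ^ (n + 7) := ⟨_, rfl⟩
  have hδ'0 : 0 < δ' := by rw [hδ']; positivity
  have hδ'1 : S.D ^ (-σ2) ≤ δ' := by rw [hδ']; exact hδq (n + 7) hpn _ hZ1
  have hδ'2 : δ' ≤ 1 / 2 := by
    rw [hδ']
    refine le_trans ?_ hδ2
    calc δ ^ (n + 7) ≤ δ ^ 1 := pow_le_pow_of_le_one hδ0.le hδ1 (by omega)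
      _ = δ := pow_one δ
  have hδ'i : 32 * W ≤ δ'⁻¹ := by
    rw [hδ', ← inv_pow, pow_add, ← hW]
    have h32 : (2 : ℝ) ^ 7 ≤ δ⁻¹ ^ 7 := pow_le_pow_left₀ (by norm_num) hinv 7
    calc 32 * W ≤ W * 2 ^ 7 := by linarith
      _ ≤ W * δ⁻¹ ^ 7 := mul_le_mul_of_nonneg_left h32 hW0.le
  have hπ0 : 0 < Real.pi := Real.pi_pos
  have hQpos : 0 < S.Q := by exact_mod_cast hQ0
  obtain ⟨N', p', hp'p, hN'p, hN'1, hN'2⟩ : ∃ N' p' : ℕ, p'.Prime ∧ N' = S.Q * p' ∧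
      4 * (X * q0) ≤ N' ∧ N' ≤ 16 * (X * q0) := by
    obtain ⟨p', h1, h2, h3⟩ := Nat.exists_prime_lt_and_le_two_mul (4 * (X * q0) / S.Q + 1)
      (Nat.succ_ne_zero _)
    have h4 : 4 * (X * q0) < S.Q * (4 * (X * q0) / S.Q + 1) := Nat.lt_mul_div_succ _ hQpos
    have h5 : S.Q * (4 * (X * q0) / S.Q) ≤ 4 * (X * q0) := Nat.mul_div_le _ _
    have h6 : S.Q ≤ X * q0 := hQX.trans (Nat.le_mul_of_pos_right _ hq0)
    refine ⟨S.Q * p', p', h1, rfl, h4.le.trans (Nat.mul_le_mul_left _ h2.le), ?_⟩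
    calc S.Q * p' ≤ S.Q * (2 * (4 * (X * q0) / S.Q + 1)) := Nat.mul_le_mul_left _ h3
      _ = 2 * (S.Q * (4 * (X * q0) / S.Q)) + 2 * S.Q := by ring
      _ ≤ 16 * (X * q0) := by omega
  have : NeZero N' := ⟨by omega⟩
  have h4L : 4 * (L : ℝ) ≤ N' := by rw [hL]; exact_mod_cast hN'1
  have h16L : (N' : ℝ) ≤ 16 * L := by rw [hL]; exact_mod_cast hN'2
  have hx2p : ε / 4 ≤ x2 := by linarith
  have hGood : Good (S.sub u' T') c N' x2 := by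
    refine ⟨hG.ρ0, hG.ρ1, hG.Q1, hG.Q2, fun i => ?_, fun i => ?_, fun i => ?_, ?_, hDu, hDu2, ?_⟩
    · exact (mul_le_mul_of_nonneg_left (hexp _ _ (by linarith)) hQ0.le).trans (hG.P1 i)
    · exact (hG.P2 i).trans (mul_le_mul_of_nonneg_left (hexp _ _ (by linarith)) hQ0.le)
    · have h1x : 1 ≤ S.D ^ x2 := Real.one_le_rpow hD1 hx2.le
      change S.P i ≤ N' * S.D ^ x2
      refine le_trans ?_ (mul_le_mul_of_nonneg_right h4L (hpos _).le)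
      refine Fin.lastCases ?_ (fun i => ?_) i
      · rw [← hP]
        have h1 : S.D ^ (-ε) * S.D ^ x2 = S.D ^ (-ε + x2) := hadd _ _
        have h2 : 1 ≤ S.D ^ (-ε + x2) := Real.one_le_rpow hD1 (by linarith)
        have h3 : P * S.D ^ (-ε) / 2 * S.D ^ x2 ≤ L * S.D ^ x2 :=
          mul_le_mul_of_nonneg_right hXq1 (hpos _).le
        have h4 : P * 1 ≤ P * (S.D ^ (-ε) * S.D ^ x2) := by
          rw [h1]; exact mul_le_mul_of_nonneg_left h2 hPpos.le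
        linarith
      · have h1 := hPi i
        have h2 : (1 : ℝ) ≤ 3 ^ (c i.castSucc) := Real.one_le_rpow (by norm_num) (hc0 _).le
        have h3 : S.P i.castSucc * 1 ≤ S.P i.castSucc * 3 ^ (c i.castSucc) :=
          mul_le_mul_of_nonneg_left h2 (hP0 _).le
        have h4 : (L : ℝ) * 1 ≤ L * S.D ^ x2 := mul_le_mul_of_nonneg_left h1x hL0.le
        linarith
    · change (S.Q : ℝ) ≤ N'
      linarith
    · change S.D ^ (1 - x2) ≤ (T' : ℝ)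
      exact (hexp _ _ (by linarith)).trans hT'1
  have hIG' : IG (S.sub u' T') c N' x2 lam :=
    ⟨hGood, hIG.Q3.trans (hexp _ _ (by linarith)), hIG.lam1, hIG.rho, hIG.Pint, p', hp'p, hN'p⟩
  -- classes
  have hA0 := lpl2_classes (N' := N') X q0 S.Q hX1n hq0 hQX hQpos δ⁻¹ W δ'⁻¹ hinv hWδ hδ'i z ϑ hϑQ hN'1 f0 hf0
  have hAi := fun i => lpl2_classes_i (N' := N') X q0 S.Q hX1n hq0 hQX hQpos δ⁻¹ W δ'⁻¹ hinv hWδ hδ'i z
    hN'1 (f i) (hf i)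
  have hAc := lpl2_classes_c (N' := N') X q0 κ hX1n hq0 W δ'⁻¹ (hinv.trans hWδ) hδ'i cc φ ϑ hcc hφθ hN'1
    (S.a c (Fin.last m) u' : ZMod N')
  have hA : ∀ i, Adm (N := N') δ'⁻¹ S.Q ((Fin.snoc (α := fun _ => ZMod N' → ℂ)
      (fun i y => f i (z + (y.val : ZMod N)))
      (fun y => cpf X (X * q0) κ cc φ ϑ (y - (S.a c (Fin.last m) u' : ZMod N')).val) :
      Fin (m + 1) → ZMod N' → ℂ) i) := by
    intro i
    refine Fin.lastCases ?_ (fun i => ?_) i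
    · rw [Fin.snoc_last]
      exact hAc.mono le_rfl hQ0 hQXr
    · rw [Fin.snoc_castSucc]
      exact hAi i
  have hkI : ∀ k ∈ Ico u' (u' + T'), u' ≤ k ∧ k < u' + T' := fun k hk => mem_Ico.1 hk
  have hδn8 : δ ^ n / 8 ≤ 1 := by
    have := pow_le_one₀ hδ0.le hδ1 (n := n)
    linarith only [this]
  have htr := lpl2_transport (N' := N') S c f0 f X (X * q0) κ z cc φ ϑ u' T' (hL ▸ hL1) hN'1
    (by
      intro i k hk
      obtain ⟨hk1, hk2⟩ := hkI k hk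
      have h7 := lpl_b S c i.castSucc (hc0 _) hG.ρ0 hG.ρ1 hD1 (hP0 _).le T' u' k hDu hk1 hk2 hDu2
      refine ⟨h7.2.1, ?_⟩
      have h8 := h7.2.2.trans (hPi i)
      rw [hL] at h8
      exact_mod_cast h8)
    (by
      intro k hk
      obtain ⟨hk1, hk2⟩ := hkI k hk
      have h7 := hb u' k hu1 hk1 hk2 hu2
      refine ⟨h7.1, h7.2.trans ?_⟩
      have h8 : (Bd : ℝ) ≤ ((X * q0 : ℕ) : ℝ) := by
        refine hBdle.trans ?_
        exact mul_le_of_le_one_left (by positivity) hδn8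
      exact_mod_cast h8)
  have hF : δ' ≤ ‖form (N := N') (S.sub u' T') c
      (fun k => e (ϑ * ((S.a c (Fin.last m) k - S.a c (Fin.last m) u' : ℤ) : ℝ)))
      (fun y => if y.val < X * q0 then f0 (z + (y.val : ZMod N)) * e (ϑ * (y.val : ℝ)) else 0)
      (Fin.snoc (α := fun _ => ZMod N' → ℂ) (fun i y => f i (z + (y.val : ZMod N)))
        (fun y => cpf X (X * q0) κ cc φ ϑ (y - (S.a c (Fin.last m) u' : ZMod N')).val))‖ := by
    rw [htr, norm_mul, hϑ]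
    have h1 : ‖((X * q0 : ℕ) : ℂ) / N'‖ = (L : ℝ) / N' := by
      rw [norm_div, Complex.norm_natCast, Complex.norm_natCast, hL]
    rw [h1, hδ', pow_add]
    have hN'0 : (0 : ℝ) < N' := by linarith only [h4L, hL0]
    have h1' : 1 / 16 ≤ (L : ℝ) / N' := by
      rw [div_le_div_iff₀ (by norm_num) hN'0]
      linarith only [h16L]
    have h2 : δ ^ 7 ≤ 1 / 128 := by
      calc δ ^ 7 ≤ (1 / 2) ^ 7 := pow_le_pow_left₀ hδ0.le hδ2 7
        _ = 1 / 128 := by norm_num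
    have h3 : δ ^ n * δ ^ 7 ≤ δ ^ n * (1 / 128) := mul_le_mul_of_nonneg_left h2 hδn0.le
    have h4 : 1 / 16 * (δ ^ n / 8) ≤ (L : ℝ) / N' * ‖lplE2 S c f0 f X (X * q0) κ z cc φ (θ κ) u' T'‖ :=
      mul_le_mul h1' hE2 (by positivity) (by positivity)
    linarith only [h3, h4]
  have hX1' : S.Q * S.D ^ (s - σ2) ≤ (X : ℝ) := by
    refine (mul_le_mul_of_nonneg_left (hexp _ _ ?_) hQ0.le).trans hX1
    have h1 : Z / p ≤ Z := div_le_self hZ0.le (by exact_mod_cast hp0)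
    linarith only [h1, hZ1]
  have hδδ' : δ⁻¹ ≤ δ'⁻¹ := by
    rw [hδ', ← inv_pow]; exact le_self_pow₀ hinv1 (by omega)
  obtain ⟨q, hq1, hqC, θ', hθ1, hθ2, hθ3⟩ := H2 (S.sub u' T') N' lam hDD2 hIG' δ' hδ'1 hδ'2
    (hlam.trans hδδ') X hQXr
    hX1' hX2 _ _ _ (fun k => (norm_e _).le) hA0 hA (by rw [Fin.snoc_last]; exact hAc) hF
  -- the window
  obtain ⟨K, hKd⟩ : ∃ K, K = ⌊S.D ^ (1 - ε2)⌋₊ := ⟨_, rfl⟩
  have hK2 : (K : ℝ) ≤ S.D ^ (1 - ε2) := by rw [hKd]; exact Nat.floor_le (hpos _).le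
  have hK3 : S.D ^ (1 - ε2) < K + 1 := by rw [hKd]; exact Nat.lt_floor_add_one _
  have hD2 : 2 ≤ S.D ^ (1 - ε2) := by
    have h1 : S.D ^ (1 / 2 : ℝ) ≤ S.D ^ (1 - ε2) := hexp _ _ (by linarith only [hε2b])
    have h2 : (4 : ℝ) ^ (1 / 2 : ℝ) ≤ S.D ^ (1 / 2 : ℝ) :=
      Real.rpow_le_rpow (by norm_num) (by linarith only [hD26]) (by norm_num)
    have h3 : (4 : ℝ) ^ (1 / 2 : ℝ) = 2 := by
      rw [← Real.sqrt_eq_rpow, show (4 : ℝ) = 2 ^ 2 by norm_num]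
      exact Real.sqrt_sq (by norm_num)
    linarith only [h1, h2, h3]
  have hK1 : 1 ≤ K := by
    have : (1 : ℝ) ≤ K := by linarith only [hK3, hD2]
    exact_mod_cast this
  have hK4 : S.D ^ (1 - xE) ≤ K := by
    have h1 : 2 ≤ S.D ^ (xE - ε2) := hDxE.trans (hexp _ _ (by linarith only [hε2a]))
    have h2 : S.D ^ (1 - ε2) = S.D ^ (xE - ε2) * S.D ^ (1 - xE) := by
      rw [hadd]; congr 1; ring
    have h3 : 2 * S.D ^ (1 - xE) ≤ S.D ^ (1 - ε2) := by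
      rw [h2]; exact mul_le_mul_of_nonneg_right h1 (hpos _).le
    linarith only [h3, hK3, hD2]
  have hKD : (K : ℝ) ≤ S.D := by
    refine hK2.trans ?_
    calc S.D ^ (1 - ε2) ≤ S.D ^ (1 : ℝ) := hexp _ _ (by linarith only [hε20])
      _ = S.D := Real.rpow_one _
  have hθ3' := hθ3 K hK1 hK2
  have hδC : δ' ^ C2 = δ ^ ((n + 7) * C2) := by rw [hδ', ← pow_mul]
  have hδC' : δ'⁻¹ ^ C2 = δ⁻¹ ^ ((n + 7) * C2) := by rw [hδ', ← inv_pow, ← pow_mul]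
  have hA2 : 2 * Real.pi * |ϑ| ≤ δ' ^ C2 / 2 := by
    have h1 : S.D ^ (-(1 / 2 : ℝ)) ≤ δ' ^ C2 := by rw [hδC]; exact hδq _ hpC _ hZ3
    have h2 : W ≤ S.D ^ (1 / 2 : ℝ) := by rw [hW]; exact hinvq n hn1 _ hZ3
    have h3 : |ϑ| ≤ 2 * S.D ^ (1 / 2 : ℝ) / S.D ^ (2 : ℝ) :=
      hϑQ.trans (div_le_div₀ (by have := hpos (1 / 2); positivity)
        (mul_le_mul_of_nonneg_left h2 (by norm_num)) (hpos _) hQ2)
    have h4 : 2 * S.D ^ (1 / 2 : ℝ) / S.D ^ (2 : ℝ) = 2 * S.D ^ (-(3 / 2) : ℝ) := by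
      rw [mul_div_assoc, ← Real.rpow_sub hD0]; congr 2; norm_num
    rw [h4] at h3
    have h5 : S.D ^ (-(1 / 2 : ℝ)) = S.D ^ (1 : ℝ) * S.D ^ (-(3 / 2) : ℝ) := by
      rw [hadd]; congr 1; norm_num
    rw [Real.rpow_one] at h5
    have h6 : 26 * S.D ^ (-(3 / 2) : ℝ) ≤ S.D * S.D ^ (-(3 / 2) : ℝ) :=
      mul_le_mul_of_nonneg_right hD26 (hpos _).le
    have h7 : 2 * Real.pi * |ϑ| ≤ 2 * 3.15 * (2 * S.D ^ (-(3 / 2) : ℝ)) :=
      mul_le_mul (mul_le_mul_of_nonneg_left Real.pi_lt_d2.le (by norm_num)) h3 (abs_nonneg _)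
        (by norm_num)
    have h8 := hpos (-(3 / 2) : ℝ)
    linarith only [h1, h5, h6, h7, h8]
  obtain ⟨k, hk1, hk2, hwin⟩ := lpl2_window S c θ' ϑ (δ' ^ C2) u' T' K q hT'3 hA2 hθ3'
  obtain ⟨v, hv⟩ : ∃ v : Fin (m + 1) → ℝ, v = fun i => θ' i * S.P i +
    (if i = Fin.last m then ϑ * S.P i else 0) := ⟨_, rfl⟩
  have hva : ∀ i, |v i| ≤ S.D ^ (cl + 5) := by
    intro i
    have h0 : |v i| ≤ |θ' i * S.P i| + |ϑ * S.P i| := by
      rw [hv]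
      refine (abs_add_le _ _).trans ?_
      split_ifs
      · exact le_rfl
      · rw [abs_zero]
        have := abs_nonneg (ϑ * S.P i)
        linarith
    refine h0.trans ?_
    have h1 : |θ' i| ≤ S.D ^ (1 / 2 : ℝ) / S.Q := by
      refine (hθ1 i).trans ?_
      rw [hδC']
      exact div_le_div_of_nonneg_right (hinvq _ hpC _ hZ3) hQ0.le
    have h2 : |ϑ| ≤ 2 * S.D ^ (1 / 2 : ℝ) / S.Q := by
      refine hϑQ.trans (div_le_div_of_nonneg_right ?_ hQ0.le)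
      rw [hW]
      exact mul_le_mul_of_nonneg_left (hinvq n hn1 _ hZ3) (by norm_num)
    have hci : c i ≤ cl := hcs.monotone (Fin.le_last i)
    have h3 : S.P i ≤ S.Q * S.D ^ (cl + 1) :=
      (hG.P2 i).trans (mul_le_mul_of_nonneg_left (hexp _ _ (by linarith only [hci, hε4])) hQ0.le)
    rw [abs_mul, abs_mul, abs_of_pos (hP0 i), ← add_mul]
    have h4 : |θ' i| + |ϑ| ≤ 3 * S.D ^ (1 / 2 : ℝ) / S.Q := by
      have : 3 * S.D ^ (1 / 2 : ℝ) / S.Q = S.D ^ (1 / 2 : ℝ) / S.Q + 2 * S.D ^ (1 / 2 : ℝ) / S.Q := by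
        ring
      linarith only [h1, h2, this]
    calc (|θ' i| + |ϑ|) * S.P i ≤ (3 * S.D ^ (1 / 2 : ℝ) / S.Q) * (S.Q * S.D ^ (cl + 1)) :=
          mul_le_mul h4 h3 (hP0 i).le (by have := hpos (1 / 2); positivity)
      _ = 3 * (S.D ^ (1 / 2 : ℝ) * S.D ^ (cl + 1)) := by field_simp
      _ = 3 * S.D ^ (1 / 2 + (cl + 1)) := by rw [hadd]
      _ ≤ S.D * S.D ^ (1 / 2 + (cl + 1)) :=
          mul_le_mul_of_nonneg_right (by linarith only [hD26]) (hpos _).le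
      _ = S.D ^ (1 + (1 / 2 + (cl + 1))) := by
          rw [← hadd 1, Real.rpow_one]
      _ ≤ S.D ^ (cl + 5) := hexp _ _ (by linarith only)
  -- the parameter for `ratl`
  obtain ⟨δr, hδr⟩ : ∃ δr, δr = δ ^ p1 := ⟨_, rfl⟩
  have hδr0 : 0 < δr := by rw [hδr]; exact pow_pos hδ0 _
  have hδr1 : S.D ^ (-σE) ≤ δr := by
    rw [hδr]; exact hδq p1 hp1p _ (by linarith only [hZ4, hσE])
  have hδr2 : δr ≤ 1 / 2 := by
    rw [hδr]
    calc δ ^ p1 ≤ δ ^ 1 := pow_le_pow_of_le_one hδ0.le hδ1 (by omega)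
      _ = δ := pow_one δ
      _ ≤ 1 / 2 := hδ2
  have hδrA : δr ≤ δ' ^ C2 / 2 := by
    rw [hδr, hδC]
    calc δ ^ p1 ≤ δ ^ ((n + 7) * C2 + 1) := pow_le_pow_of_le_one hδ0.le hδ1 hp1C
      _ = δ ^ ((n + 7) * C2) * δ := pow_succ _ _
      _ ≤ δ ^ ((n + 7) * C2) * (1 / 2) := mul_le_mul_of_nonneg_left hδ2 (pow_pos hδ0 _).le
      _ = δ ^ ((n + 7) * C2) / 2 := by ring
  have hδri : δ⁻¹ ^ p1 = δr⁻¹ := by rw [hδr, inv_pow]
  have hlamr : (lam : ℝ) ≤ δr⁻¹ := by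
    rw [← hδri]; exact hlam.trans (le_self_pow₀ hinv1 (by omega))
  have hqr : (q : ℝ) ≤ δr⁻¹ := by
    rw [← hδri]
    refine hqC.trans ?_
    rw [hδC']
    exact pow_le_pow_right₀ hinv1 (by omega)
  have hDk : S.D ≤ (k : ℝ) := by
    have : (u' : ℝ) ≤ k := by exact_mod_cast hk1
    linarith only [this, hDu]
  have hkD : (k : ℝ) ≤ 3 * S.D := by
    have : (k : ℝ) ≤ u' + T' := by exact_mod_cast hk2.le
    linarith only [this, hDu2, hD0]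
  have hqK : (q : ℝ) * K ≤ S.D := by
    have h1 : (q : ℝ) ≤ S.D ^ ε2 := by
      refine hqC.trans ?_
      rw [hδC']
      exact hinvq _ hpC _ hZ5
    calc (q : ℝ) * K ≤ S.D ^ ε2 * S.D ^ (1 - ε2) :=
          mul_le_mul h1 hK2 (by positivity) (hpos _).le
      _ = S.D ^ (ε2 + (1 - ε2)) := hadd _ _
      _ = S.D := by
          rw [show ε2 + (1 - ε2) = 1 by ring, Real.rpow_one]
  obtain ⟨hR1, q', hq'1, hq'C, hR2⟩ := HE S.D hDDE S.ρ hG.ρ0 hG.ρ1 lam hIG.lam1 hIG.rho δr hδr1 hδr2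
    hlamr v hva q k K hq1 hqr hDk hkD hK4 hqK
    (by
      refine hδrA.trans ?_
      rw [hv]
      exact hwin)
  -- conclusion
  have hvl : v (Fin.last m) = (θ' (Fin.last m) + ϑ) * P := by
    rw [hv, hP]
    simp only [if_true]
    ring
  have hXP : (X : ℝ) * S.D ^ ((cl - s) / 8) ≤ P := by
    calc (X : ℝ) * S.D ^ ((cl - s) / 8) ≤ (S.Q * S.D ^ s) * S.D ^ ((cl - s) / 8) :=
          mul_le_mul_of_nonneg_right hX2 (hpos _).le
      _ = S.Q * S.D ^ (s + (cl - s) / 8) := by rw [mul_assoc, hadd]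
      _ ≤ S.Q * S.D ^ (cl - ε / 4) :=
          mul_le_mul_of_nonneg_left (hexp _ _ (by linarith only [hε2, hs])) hQ0.le
      _ ≤ P := hP1
  have hϑX : |θ' (Fin.last m) + ϑ| ≤ 1 / X := by
    by_cases hN : IsN cl
    · obtain ⟨d, hd⟩ := hN
      have hPd : S.P (Fin.last m) = S.Q * (lam * S.D) ^ d := hIG.Pint _ d hd
      have hlam0 : (0 : ℝ) < lam := by exact_mod_cast hIG.lam1
      have hlD : (0 : ℝ) < (lam * S.D) ^ d := by positivity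
      have h1 := hR2 (Fin.last m) d hd
      obtain ⟨y, hy⟩ : ∃ y, y = (θ' (Fin.last m) + ϑ) * S.Q := ⟨_, rfl⟩
      have h2 : v (Fin.last m) / (lam * S.D) ^ d = y := by
        rw [hvl, hP, hPd, hy]
        field_simp
      rw [h2] at h1
      have hq'0 : (1 : ℝ) ≤ q' := by exact_mod_cast hq'1
      have hst : t1 ≤ s0 := ht1s ⟨d, hd⟩
      have hZp : Z / p ≤ Z := div_le_self hZ0.le (by exact_mod_cast hp0)
      have hXQ : (S.Q : ℝ) / X ≤ S.D ^ (Z - t1) := by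
        rw [div_le_iff₀ hX0]
        calc (S.Q : ℝ) = S.D ^ (Z - t1) * (S.Q * S.D ^ (t1 - Z)) := by
              rw [mul_left_comm, hadd, show Z - t1 + (t1 - Z) = 0 by ring, Real.rpow_zero, mul_one]
          _ ≤ S.D ^ (Z - t1) * (S.Q * S.D ^ (s - Z / p)) := by
              refine mul_le_mul_of_nonneg_left (mul_le_mul_of_nonneg_left (hexp _ _ ?_) hQ0.le)
                (hpos _).le
              linarith only [hst, hs0s, hZp]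
          _ ≤ S.D ^ (Z - t1) * X := mul_le_mul_of_nonneg_left hX1 (hpos _).le
      have hDZ := hpos Z
      have h3 : |θ' (Fin.last m)| * S.Q ≤ S.D ^ Z * S.D ^ (Z - t1) := by
        calc |θ' (Fin.last m)| * S.Q ≤ (δ'⁻¹ ^ C2 / X) * S.Q :=
              mul_le_mul_of_nonneg_right hθ2 hQ0.le
          _ = δ'⁻¹ ^ C2 * (S.Q / X) := by ring
          _ ≤ S.D ^ Z * S.D ^ (Z - t1) := by
              refine mul_le_mul ?_ hXQ (by positivity) hDZ.le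
              rw [hδC']; exact hinvq _ hpC _ le_rfl
      have h4 : |ϑ| * S.Q ≤ 2 * (S.D ^ Z * S.D ^ (Z - t1)) := by
        have h5 := hφθ j0 hj0 hcj0
        have h6 := hφ1 j0
        have h7 : |ϑ| ≤ |φ j0| + |φ j0 - ϑ| := by
          have := abs_sub_abs_le_abs_sub ϑ (φ j0)
          rw [abs_sub_comm] at this
          linarith
        have h8 : |φ j0| * S.Q ≤ S.D ^ Z * S.D ^ (Z - t1) := by
          calc |φ j0| * S.Q ≤ δ⁻¹ / (S.Q * S.D ^ s0) * S.Q := mul_le_mul_of_nonneg_right h6 hQ0.le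
            _ = δ⁻¹ * S.D ^ (-s0) := by
                rw [Real.rpow_neg hD0.le]
                have := hpos s0
                field_simp
            _ ≤ S.D ^ Z * S.D ^ (Z - t1) := by
                refine mul_le_mul ?_ (hexp _ _ (by linarith only [hst, hZ0])) (hpos _).le hDZ.le
                calc δ⁻¹ = δ⁻¹ ^ 1 := (pow_one _).symm
                  _ ≤ S.D ^ Z := hinvq 1 (by omega) _ le_rfl
        have h9 : |φ j0 - ϑ| * S.Q ≤ S.D ^ Z * S.D ^ (Z - t1) := by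
          calc |φ j0 - ϑ| * S.Q ≤ W / X * S.Q := mul_le_mul_of_nonneg_right h5 hQ0.le
            _ = W * (S.Q / X) := by ring
            _ ≤ S.D ^ Z * S.D ^ (Z - t1) := by
                refine mul_le_mul ?_ hXQ (by positivity) hDZ.le
                rw [hW]; exact hinvq n hn1 _ le_rfl
        have h10 := mul_le_mul_of_nonneg_right h7 hQ0.le
        linarith only [h8, h9, h10]
      have h5 : |y| ≤ 3 * (S.D ^ Z * S.D ^ (Z - t1)) := by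
        rw [hy, abs_mul, abs_of_pos hQ0]
        have := mul_le_mul_of_nonneg_right (abs_add_le (θ' (Fin.last m)) ϑ) hQ0.le
        linarith only [this, h3, h4]
      have h6 : (q' : ℝ) ≤ S.D ^ Z := by
        refine hq'C.trans ?_
        rw [← hδri, ← pow_mul]
        exact hinvq _ hp1R _ le_rfl
      have h7 : |(q' : ℝ) * y| < 1 / 2 := by
        rw [abs_mul, abs_of_pos (by linarith only [hq'0])]
        calc (q' : ℝ) * |y| ≤ S.D ^ Z * (3 * (S.D ^ Z * S.D ^ (Z - t1))) :=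
              mul_le_mul h6 h5 (abs_nonneg _) hDZ.le
          _ = 3 * (S.D ^ Z * (S.D ^ Z * S.D ^ (Z - t1))) := by ring
          _ = 3 * S.D ^ (Z + (Z + (Z - t1))) := by rw [hadd, hadd]
          _ ≤ 3 * S.D ^ (-(t1 / 4)) :=
              mul_le_mul_of_nonneg_left (hexp _ _ (by linarith only [hZ6])) (by norm_num)
          _ ≤ 3 * (1 / 7) := by
              refine mul_le_mul_of_nonneg_left ?_ (by norm_num)
              rw [Real.rpow_neg hD0.le, ← one_div]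
              exact one_div_le_one_div_of_le (by norm_num) hDt1
          _ < 1 / 2 := by norm_num
      rw [lpl2_dint h7, abs_mul, abs_of_pos (by linarith only [hq'0] : (0 : ℝ) < q')] at h1
      have h8 : |y| ≤ S.D ^ ((cl - s) / 8 - d) :=
        (le_mul_of_one_le_left (abs_nonneg _) hq'0).trans h1
      rw [le_div_iff₀ hX0]
      calc |θ' (Fin.last m) + ϑ| * X ≤ |θ' (Fin.last m) + ϑ| * (S.Q * S.D ^ s) :=
            mul_le_mul_of_nonneg_left hX2 (abs_nonneg _)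
        _ = |y| * S.D ^ s := by
            rw [hy, abs_mul, abs_of_pos hQ0]; ring
        _ ≤ S.D ^ ((cl - s) / 8 - d) * S.D ^ s := mul_le_mul_of_nonneg_right h8 (hpos _).le
        _ = S.D ^ ((cl - s) / 8 - d + s) := hadd _ _
        _ ≤ S.D ^ (0 : ℝ) := hexp _ _ (by rw [← hd]; linarith only [hs])
        _ = 1 := Real.rpow_zero _
    · have hfin := hR1 (Fin.last m) hN
      rw [hvl, abs_mul, abs_of_pos hPpos] at hfin
      rw [le_div_iff₀ hX0]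
      have h1 : |θ' (Fin.last m) + ϑ| * P * X ≤ S.D ^ ((cl - s) / 8) * X :=
        mul_le_mul_of_nonneg_right hfin hX0.le
      have h2 : |θ' (Fin.last m) + ϑ| * X * P ≤ 1 * P := by linarith only [h1, hXP]
      exact le_of_mul_le_mul_right h2 hPpos
  have hϑ1 : |ϑ| ≤ |θ' (Fin.last m) + ϑ| + |θ' (Fin.last m)| := by
    have := abs_sub (θ' (Fin.last m) + ϑ) (θ' (Fin.last m))
    rw [add_sub_cancel_left] at this
    exact this
  refine ⟨j0, hcj0, ?_⟩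
  have h1 : |φ j0| ≤ |φ j0 - ϑ| + |ϑ| := by
    have := abs_add_le (φ j0 - ϑ) ϑ
    rwa [sub_add_cancel] at this
  have h2 := hφθ j0 hj0 hcj0
  have h3 : W ≤ δ⁻¹ ^ p := by rw [hW]; exact pow_le_pow_right₀ hinv1 hn1
  have h4 : δ'⁻¹ ^ C2 ≤ δ⁻¹ ^ p := by rw [hδC']; exact pow_le_pow_right₀ hinv1 hpC
  have h5 : 1 ≤ δ⁻¹ ^ p := one_le_pow₀ hinv1
  have h6 : (2 : ℝ) ^ 2 ≤ δ⁻¹ ^ 2 := pow_le_pow_left₀ (by norm_num) hinv 2
  have h7 : δ⁻¹ ^ p * 2 ^ 2 ≤ δ⁻¹ ^ p * δ⁻¹ ^ 2 := mul_le_mul_of_nonneg_left h6 (by linarith only [h5])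
  have h8 : W / X + (1 / X + δ'⁻¹ ^ C2 / X) = (W + 1 + δ'⁻¹ ^ C2) / X := by ring
  have h9 : W / X + (1 / X + δ'⁻¹ ^ C2 / X) ≤ δ⁻¹ ^ (p + 2) / X := by
    rw [h8, pow_add]
    refine div_le_div_of_nonneg_right ?_ hX0.le
    linarith only [h3, h4, h5, h7]
  linarith only [h1, h2, h9, hϑ1, hϑX, hθ2]


end

end Pool.Agent.Helper67.NX2
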